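import Pool.Agent.Q100.SnaMain

/-!
# MP_808fa7: density of the strongly exposing and of the strongly norm attaining functions

The definitions are in `Pool/Agent/Q100/SnaDefs.lean`.
-/

set_option autoImplicit false

namespace Pool.Agent.Results.MP_808fa7_an.SNADenseIffLipSEDense

open Q100.Sna Q99.FS

universe u

/-- For every pointed metric space `(M, o)`, the strongly exposing Lipschitz functions are dense in
`Lip_0(M)` if and only if the strongly norm attaining ones are. -/
theorem result (M : Type u) [MetricSpace M] (o : M) :
    Dense (LipSE o : Set (Lip0 ℝ M o)) ↔ Dense (SNA o : Set (Lip0 ℝ M o)) :=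
  ⟨fun h => h.mono lipSE_subset, dense_lipSE⟩

end Pool.Agent.Results.MP_808fa7_an.SNADenseIffLipSEDense
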